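import Pool.Agent.H798.BV.Stm2

set_option autoImplicit false

/-!
# The lower bound of the integral for a zero close to the centre, `2 < p`
-/

namespace Pool.Agent.H345.BV

open Pool.Agent.H798.BV

theorem factor3 (x : ℂ) (hx : ‖x‖ ≤ 1 / 2) :
    ∃ r : ℂ, ‖r‖ ≤ ‖x‖ ^ 3 ∧ 1 - x = Complex.exp (-x - x ^ 2 / 2 + r) := by
  refine ⟨Complex.log (1 - x) + x + x ^ 2 / 2, ?_, ?_⟩
  · have h := Complex.norm_log_sub_logTaylor_le 2 (z := -x) (by rw [norm_neg]; linarith)
    rw [norm_neg, ← sub_eq_add_neg] at h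
    have e : Complex.logTaylor (2 + 1) (-x) = -x - x ^ 2 / 2 := by
      unfold Complex.logTaylor
      simp [Finset.sum_range_succ]
      ring
    rw [e] at h
    have e2 : Complex.log (1 - x) + x + x ^ 2 / 2 = Complex.log (1 - x) - (-x - x ^ 2 / 2) := by
      ring
    rw [e2]
    refine h.trans ?_
    have h3 : (1 - ‖x‖)⁻¹ ≤ 2 := by
      rw [inv_le_comm₀ (by linarith) (by norm_num)]
      linarith
    have h0 : 0 ≤ ‖x‖ ^ 3 := by positivity
    have h4 : ‖x‖ ^ (2 + 1) * (1 - ‖x‖)⁻¹ ≤ ‖x‖ ^ 3 * 2 := mul_le_mul_of_nonneg_left h3 h0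
    push_cast
    linarith
  · have h1 : 1 - x ≠ 0 := by
      intro h
      have h2 : x = 1 := by linear_combination -h
      rw [h2] at hx
      norm_num at hx
    have e : -x - x ^ 2 / 2 + (Complex.log (1 - x) + x + x ^ 2 / 2) = Complex.log (1 - x) := by
      ring
    rw [e, Complex.exp_log h1]

theorem factor2 (x : ℂ) (hx : ‖x‖ ≤ 1 / 2) :
    ∃ r : ℂ, ‖r‖ ≤ ‖x‖ ^ 2 ∧ 1 - x = Complex.exp (-x + r) := by
  refine ⟨Complex.log (1 - x) + x, ?_, ?_⟩
  · have h := Complex.norm_log_sub_logTaylor_le 1 (z := -x) (by rw [norm_neg]; linarith)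
    rw [norm_neg, ← sub_eq_add_neg] at h
    have e : Complex.logTaylor (1 + 1) (-x) = -x := by
      unfold Complex.logTaylor
      simp [Finset.sum_range_succ]
    rw [e] at h
    have e2 : Complex.log (1 - x) + x = Complex.log (1 - x) - (-x) := by
      ring
    rw [e2]
    refine h.trans ?_
    have h3 : (1 - ‖x‖)⁻¹ ≤ 2 := by
      rw [inv_le_comm₀ (by linarith) (by norm_num)]
      linarith
    have h0 : 0 ≤ ‖x‖ ^ 2 := by positivity
    have h4 : ‖x‖ ^ (1 + 1) * (1 - ‖x‖)⁻¹ ≤ ‖x‖ ^ 2 * 2 := mul_le_mul_of_nonneg_left h3 h0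
    push_cast
    linarith
  · have h1 : 1 - x ≠ 0 := by
      intro h
      have h2 : x = 1 := by linear_combination -h
      rw [h2] at hx
      norm_num at hx
    have e : -x + (Complex.log (1 - x) + x) = Complex.log (1 - x) := by
      ring
    rw [e, Complex.exp_log h1]

/-- upper bounds of `|1 - x|` for all `x` -/
theorem fac (x : ℂ) :
    ‖1 - x‖ ≤ Real.exp (-x.re - (x ^ 2).re / 2 + 9 * ‖x‖ ^ 3) ∧
    ‖1 - x‖ ≤ Real.exp (-x.re - (x ^ 2).re / 2 + 9 * ‖x‖ ^ 2) := by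
  have h0 := norm_nonneg x
  rcases le_or_gt ‖x‖ (1 / 2) with hx | hx
  · obtain ⟨r, hr, hr2⟩ := factor3 x hx
    have h1 : ‖1 - x‖ ≤ Real.exp (-x.re - (x ^ 2).re / 2 + ‖x‖ ^ 3) := by
      rw [hr2, Complex.norm_exp]
      apply Real.exp_le_exp.2
      have h2 : r.re ≤ ‖r‖ := Complex.re_le_norm r
      have h3 : (x ^ 2 / 2).re = (x ^ 2).re / 2 := by simp
      rw [Complex.add_re, Complex.sub_re, Complex.neg_re, h3]
      linarith
    have h3 : 0 ≤ ‖x‖ ^ 3 := by positivity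
    have h4 : ‖x‖ ^ 3 ≤ ‖x‖ ^ 2 := by nlinarith [sq_nonneg ‖x‖]
    constructor
    · exact h1.trans (Real.exp_le_exp.2 (by linarith))
    · exact h1.trans (Real.exp_le_exp.2 (by linarith [sq_nonneg ‖x‖]))
  · have h1 : ‖1 - x‖ ≤ Real.exp ‖x‖ := by
      have h2 := norm_sub_le (1 : ℂ) x
      rw [norm_one] at h2
      have h3 := Real.add_one_le_exp ‖x‖
      linarith
    have h2 : x.re ≤ ‖x‖ := Complex.re_le_norm x
    have h3 : (x ^ 2).re ≤ ‖x‖ ^ 2 := by
      have := Complex.re_le_norm (x ^ 2)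
      rwa [norm_pow] at this
    constructor
    · refine h1.trans (Real.exp_le_exp.2 ?_)
      nlinarith [mul_pos (show 0 < ‖x‖ by linarith) (show 0 < ‖x‖ - 1 / 2 by linarith),
        mul_pos (mul_pos (show 0 < ‖x‖ by linarith) (show 0 < ‖x‖ - 1 / 2 by linarith))
          (show 0 < ‖x‖ by linarith)]
    · refine h1.trans (Real.exp_le_exp.2 ?_)
      nlinarith [mul_pos (show 0 < ‖x‖ by linarith) (show 0 < ‖x‖ - 1 / 2 by linarith)]

theorem int_exp (ν c a : ℝ) (hν : 0 < ν) :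
    ∫ u in c..a, Real.exp (-(ν * u)) ≤ Real.exp (-(ν * c)) / ν := by
  have h1 : ∫ u in c..a, Real.exp (-(ν * u)) =
      (-(1 / ν) * Real.exp (-(ν * a))) - (-(1 / ν) * Real.exp (-(ν * c))) := by
    apply intervalIntegral.integral_eq_sub_of_hasDerivAt
    · intro u _
      have h2 : HasDerivAt (fun u : ℝ => -(ν * u)) (-(ν * 1)) u :=
        ((hasDerivAt_id u).const_mul ν).neg
      have h3 := (h2.exp).const_mul (-(1 / ν))
      have e : -(1 / ν) * (Real.exp (-(ν * u)) * -(ν * 1)) = Real.exp (-(ν * u)) := by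
        field_simp
      rw [e] at h3
      exact h3
    · apply Continuous.intervalIntegrable
      fun_prop
  rw [h1]
  have h4 : 0 ≤ 1 / ν * Real.exp (-(ν * a)) := by positivity
  have h5 : 1 / ν * Real.exp (-(ν * c)) = Real.exp (-(ν * c)) / ν := by ring
  linarith

/-- the bound of the product for all `0 ≤ u ≤ a` -/
theorem prod_le (μ K a : ℝ) (hμ : 0 < μ) (hK : 0 < K) (ha : 0 < a) (ha1 : a ≤ 1)
    (ha2 : (36 + 18 * K) * a ≤ μ) (m : ℕ) (l : Fin m → ℂ) (L q : ℂ)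
    (hL : ∑ k, l k = m * L) (hq : ∑ k, (l k) ^ 2 = m * q) (hl : ∑ k, ‖l k‖ ^ 2 ≤ m)
    (h : ∀ τ : ℝ, 0 ≤ τ → τ ≤ 1 → μ * a * τ ≤ τ * L.re + a * τ ^ 2 * q.re / 2)
    (hb : ∑ k, (if 2 < ‖l k‖ then ‖l k‖ ^ 2 else 0) ≤ K * (a ^ 2 * m)) (u : ℝ) (hu0 : 0 ≤ u)
    (hua : u ≤ a) :
    ‖∏ k, (1 - (u : ℂ) * l k)‖ ≤ Real.exp (-(m * a * μ / 2 * u)) := by
  have hm : (0 : ℝ) ≤ m := m.cast_nonneg
  have h1 : ‖∏ k, (1 - (u : ℂ) * l k)‖ ≤ ∏ k, Real.exp (-((u : ℂ) * l k).re -
      (((u : ℂ) * l k) ^ 2).re / 2 + 9 * (if 2 < ‖l k‖ then u ^ 2 * ‖l k‖ ^ 2 else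
        u ^ 3 * ‖l k‖ ^ 3)) := by
    rw [norm_prod]
    refine Finset.prod_le_prod (fun k _ => norm_nonneg _) fun k _ => ?_
    have e : ‖(u : ℂ) * l k‖ = u * ‖l k‖ := by
      rw [norm_mul, Complex.norm_real, Real.norm_eq_abs, abs_of_nonneg hu0]
    have h2 := fac ((u : ℂ) * l k)
    rw [e, mul_pow u ‖l k‖ 3, mul_pow u ‖l k‖ 2] at h2
    split_ifs
    · exact h2.2
    · exact h2.1
  rw [← Real.exp_sum] at h1
  refine h1.trans (Real.exp_le_exp.2 ?_)
  have h2 : ∑ k, (if 2 < ‖l k‖ then u ^ 2 * ‖l k‖ ^ 2 else u ^ 3 * ‖l k‖ ^ 3) ≤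
      u ^ 2 * (K * (a ^ 2 * m)) + 2 * u ^ 3 * m := by
    calc ∑ k, (if 2 < ‖l k‖ then u ^ 2 * ‖l k‖ ^ 2 else u ^ 3 * ‖l k‖ ^ 3) ≤
        ∑ k, (u ^ 2 * (if 2 < ‖l k‖ then ‖l k‖ ^ 2 else 0) + 2 * u ^ 3 * ‖l k‖ ^ 2) := by
          refine Finset.sum_le_sum fun k _ => ?_
          split_ifs with hk
          · have : 0 ≤ 2 * u ^ 3 * ‖l k‖ ^ 2 := by positivity
            linarith
          · push Not at hk
            have h3 : ‖l k‖ ^ 3 ≤ 2 * ‖l k‖ ^ 2 := by
              nlinarith [sq_nonneg ‖l k‖, norm_nonneg (l k)]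
            have h4 := mul_le_mul_of_nonneg_left h3 (show 0 ≤ u ^ 3 by positivity)
            linarith
      _ = u ^ 2 * ∑ k, (if 2 < ‖l k‖ then ‖l k‖ ^ 2 else 0) + 2 * u ^ 3 * ∑ k, ‖l k‖ ^ 2 := by
          rw [Finset.sum_add_distrib, ← Finset.mul_sum, ← Finset.mul_sum]
      _ ≤ _ := add_le_add (mul_le_mul_of_nonneg_left hb (by positivity))
          (mul_le_mul_of_nonneg_left hl (by positivity))
  have h3 : ∑ k, (-((u : ℂ) * l k).re - (((u : ℂ) * l k) ^ 2).re / 2 +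
      9 * (if 2 < ‖l k‖ then u ^ 2 * ‖l k‖ ^ 2 else u ^ 3 * ‖l k‖ ^ 3)) =
      -(u * (m * L.re)) - u ^ 2 * (m * q.re) / 2 +
        9 * ∑ k, (if 2 < ‖l k‖ then u ^ 2 * ‖l k‖ ^ 2 else u ^ 3 * ‖l k‖ ^ 3) := by
    rw [Finset.sum_add_distrib, Finset.sum_sub_distrib, Finset.sum_neg_distrib, ← Finset.mul_sum]
    have e1 : ∑ k, ((u : ℂ) * l k).re = u * (m * L.re) := by
      have : ∑ k, ((u : ℂ) * l k).re = ((u : ℂ) * ∑ k, l k).re := by
        rw [Finset.mul_sum, Complex.re_sum]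
      rw [this, hL, Complex.re_ofReal_mul, ← Complex.ofReal_natCast, Complex.re_ofReal_mul]
    have e2 : ∑ k, (((u : ℂ) * l k) ^ 2).re / 2 = u ^ 2 * (m * q.re) / 2 := by
      have : ∑ k, (((u : ℂ) * l k) ^ 2).re / 2 = (((u ^ 2 : ℝ) : ℂ) * ∑ k, l k ^ 2).re / 2 := by
        rw [Finset.mul_sum, Complex.re_sum, Finset.sum_div]
        refine Finset.sum_congr rfl fun k _ => ?_
        push_cast
        rw [mul_pow]
      rw [this, hq, Complex.re_ofReal_mul, ← Complex.ofReal_natCast, Complex.re_ofReal_mul]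
    rw [e1, e2]
  rw [h3]
  have hτ := h (u / a) (by positivity) ((div_le_one ha).2 hua)
  have e1 : μ * a * (u / a) = μ * u := by field_simp
  have e2 : u / a * L.re + a * (u / a) ^ 2 * q.re / 2 = (u * L.re + u ^ 2 * q.re / 2) / a := by
    field_simp
  rw [e1, e2, le_div_iff₀ ha] at hτ
  have h5 := mul_le_mul_of_nonneg_left hτ hm
  have h6 : 9 * (u ^ 2 * (K * (a ^ 2 * m)) + 2 * u ^ 3 * m) ≤ m * a * μ / 2 * u := by
    have h7 : 9 * (u * (K * a ^ 2) + 2 * u ^ 2) ≤ a * μ / 2 := by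
      have h8 : u * (K * a ^ 2) ≤ a * (K * a) := by
        calc u * (K * a ^ 2) ≤ a * (K * a ^ 2) := mul_le_mul_of_nonneg_right hua (by positivity)
          _ ≤ a * (K * a) := by
            apply mul_le_mul_of_nonneg_left _ ha.le
            apply mul_le_mul_of_nonneg_left _ hK.le
            nlinarith
      have h9 : u ^ 2 ≤ a * a := by nlinarith
      have h10 := mul_le_mul_of_nonneg_left ha2 ha.le
      nlinarith
    have h8 := mul_le_mul_of_nonneg_left h7 (mul_nonneg hm hu0)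
    nlinarith
  nlinarith

/-- (INTP) -/
theorem t_INTP : S_INTP := by
  intro μ K hμ hK
  obtain ⟨ε, hε⟩ : ∃ ε : ℝ, ε = min (μ / (16 * K)) (1 / 4) := ⟨_, rfl⟩
  have hε0 : 0 < ε := by rw [hε]; exact lt_min (by positivity) (by norm_num)
  have hε1 : ε ≤ μ / (16 * K) := by rw [hε]; exact min_le_left _ _
  have hε2 : ε ≤ 1 / 4 := by rw [hε]; exact min_le_right _ _
  obtain ⟨K₁, hK₁⟩ : ∃ K₁ : ℝ, K₁ = 2 / (μ * ε) := ⟨_, rfl⟩
  have hK10 : 0 < K₁ := by rw [hK₁]; positivity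
  have hexp : Real.exp (-(μ * K₁ / 2)) ≤ ε := by
    have e : μ * K₁ / 2 = ε⁻¹ := by rw [hK₁]; field_simp
    rw [e, Real.exp_neg]
    rw [inv_le_comm₀ (Real.exp_pos _) hε0]
    have := Real.add_one_le_exp ε⁻¹
    linarith
  refine ⟨min (min 1 (1 / (2 * K))) (μ / (36 + 18 * K)),
    16 * K * K₁ ^ 3 + 16 * (4 + K) * K₁ ^ 2 + K₁ + 1, ?_, ?_⟩
  · exact lt_min (lt_min one_pos (by positivity)) (by positivity)
  intro m a ha haa hT l hl hLn h hb
  have ha1 : a ≤ 1 := haa.trans ((min_le_left _ _).trans (min_le_left _ _))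
  have ha2 : a ≤ 1 / (2 * K) := haa.trans ((min_le_left _ _).trans (min_le_right _ _))
  have ha3 : a ≤ μ / (36 + 18 * K) := haa.trans (min_le_right _ _)
  rw [le_div_iff₀ (by positivity)] at ha2 ha3
  have hp3 : 0 < 16 * K * K₁ ^ 3 := by positivity
  have hp2 : 0 < 16 * (4 + K) * K₁ ^ 2 := by positivity
  have hT1 : 1 ≤ m * a ^ 2 := by linarith
  have hT2 : K₁ ≤ m * a ^ 2 := by linarith
  have hT3 : 16 * (4 + K) * K₁ ^ 2 ≤ m * a ^ 2 := by linarith
  have hT4 : 16 * K * K₁ ^ 3 ≤ m * a ^ 2 := by linarith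
  have hm : 0 < (m : ℝ) := by
    have h2 : 0 < (m : ℝ) * a ^ 2 := by linarith
    exact pos_of_mul_pos_left h2 (by positivity)
  have hmc : (m : ℂ) ≠ 0 := by exact_mod_cast hm.ne'
  have hmge : (m : ℝ) * a ^ 2 ≤ m := by
    have : a ^ 2 ≤ 1 := by nlinarith
    nlinarith
  obtain ⟨L, hL⟩ : ∃ L : ℂ, L = (∑ k, l k) / m := ⟨_, rfl⟩
  obtain ⟨q, hq⟩ : ∃ q : ℂ, q = (∑ k, (l k) ^ 2) / m := ⟨_, rfl⟩
  rw [← hL] at hLn
  simp only [← hL, ← hq] at h
  have hL' : ∑ k, l k = m * L := by rw [hL]; field_simp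
  have hq' : ∑ k, (l k) ^ 2 = m * q := by rw [hq]; field_simp
  have hma : 0 < (m : ℝ) * a := by positivity
  -- the real part of `L`
  have hLre : μ * a ≤ L.re := by
    by_contra hcon
    push Not at hcon
    obtain ⟨d, hd⟩ : ∃ d : ℝ, d = μ * a - L.re := ⟨_, rfl⟩
    have hd0 : 0 < d := by rw [hd]; linarith
    obtain ⟨τ, hτ⟩ : ∃ τ : ℝ, τ = min 1 (d / (a * (|q.re| + 1))) := ⟨_, rfl⟩
    have hτ0 : 0 < τ := by rw [hτ]; exact lt_min one_pos (by positivity)
    have hτ1 : τ ≤ 1 := by rw [hτ]; exact min_le_left _ _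
    have hτ2 : τ ≤ d / (a * (|q.re| + 1)) := by rw [hτ]; exact min_le_right _ _
    rw [le_div_iff₀ (by positivity)] at hτ2
    have h1 := h τ hτ0.le hτ1
    have h2 : μ * a ≤ L.re + a * τ * q.re / 2 := by
      have h3 : τ * (μ * a) ≤ τ * (L.re + a * τ * q.re / 2) := by nlinarith
      exact le_of_mul_le_mul_left h3 hτ0
    have h3 : q.re ≤ |q.re| := le_abs_self _
    have h4 : a * τ * q.re ≤ a * τ * (|q.re| + 1) :=
      mul_le_mul_of_nonneg_left (by linarith) (by positivity)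
    nlinarith
  have hLre0 : 0 < L.re := lt_of_lt_of_le (by positivity) hLre
  have hL0 : L ≠ 0 := by
    intro h0
    rw [h0, Complex.zero_re] at hLre0
    exact lt_irrefl _ hLre0
  obtain ⟨u₁, hu₁⟩ : ∃ u₁ : ℝ, u₁ = K₁ / (m * a) := ⟨_, rfl⟩
  have hu10 : 0 < u₁ := by rw [hu₁]; positivity
  have hu1a : u₁ ≤ a := by
    rw [hu₁, div_le_iff₀ hma]
    nlinarith
  -- the part `u ≤ u₁`
  have hsmall : ∀ u : ℝ, 0 ≤ u → u ≤ u₁ →
      ‖∏ k, (1 - (u : ℂ) * l k) - Complex.exp (-(m * L) * u)‖ ≤ 2 * (K₁ ^ 2 / (m * a ^ 2)) := by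
    intro u hu0 hu
    have hx : ∀ k, ‖(u : ℂ) * l k‖ ≤ 1 / 2 := by
      intro k
      have e : ‖(u : ℂ) * l k‖ = u * ‖l k‖ := by
        rw [norm_mul, Complex.norm_real, Real.norm_eq_abs, abs_of_nonneg hu0]
      rw [e]
      have h1 : ‖l k‖ ^ 2 ≤ 4 + K * (a ^ 2 * m) := by
        rcases le_or_gt ‖l k‖ 2 with h2 | h2
        · have h3 : 0 ≤ K * (a ^ 2 * m) := by positivity
          nlinarith [norm_nonneg (l k)]
        · have h3 : (if 2 < ‖l k‖ then ‖l k‖ ^ 2 else 0) ≤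
              ∑ j, (if 2 < ‖l j‖ then ‖l j‖ ^ 2 else 0) :=
            Finset.single_le_sum (f := fun j => if 2 < ‖l j‖ then ‖l j‖ ^ 2 else 0)
              (fun j _ => by
                show 0 ≤ (if 2 < ‖l j‖ then ‖l j‖ ^ 2 else 0)
                split_ifs
                · positivity
                · exact le_rfl) (Finset.mem_univ k)
          rw [if_pos h2] at h3
          linarith
      have h2 : (u * ‖l k‖) ^ 2 ≤ 1 / 16 := by
        rw [mul_pow]
        have h3 : u ^ 2 ≤ K₁ ^ 2 / (m * a) ^ 2 := by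
          rw [← div_pow, ← hu₁]
          gcongr
        calc u ^ 2 * ‖l k‖ ^ 2 ≤ K₁ ^ 2 / (m * a) ^ 2 * (4 + K * (a ^ 2 * m)) :=
              mul_le_mul h3 h1 (by positivity) (by positivity)
          _ ≤ K₁ ^ 2 / (m * a) ^ 2 * ((4 + K) * (m * a ^ 2)) := by
              apply mul_le_mul_of_nonneg_left _ (by positivity)
              nlinarith
          _ = (4 + K) * K₁ ^ 2 / m := by
              field_simp
          _ ≤ 1 / 16 := by
              rw [div_le_iff₀ hm]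
              linarith
      have h3 : 0 ≤ u * ‖l k‖ := by positivity
      nlinarith
    choose r hr1 hr2 using fun k => factor2 ((u : ℂ) * l k) (hx k)
    have hP : ∏ k, (1 - (u : ℂ) * l k) = Complex.exp (-(m * L) * u + ∑ k, r k) := by
      rw [Finset.prod_congr rfl fun k _ => hr2 k, ← Complex.exp_sum]
      congr 1
      rw [Finset.sum_add_distrib, Finset.sum_neg_distrib, ← Finset.mul_sum, hL']
      ring
    have hR : ‖∑ k, r k‖ ≤ K₁ ^ 2 / (m * a ^ 2) := by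
      refine (norm_sum_le _ _).trans ?_
      calc ∑ k, ‖r k‖ ≤ ∑ k, u ^ 2 * ‖l k‖ ^ 2 := by
            refine Finset.sum_le_sum fun k _ => (hr1 k).trans (le_of_eq ?_)
            rw [norm_mul, Complex.norm_real, Real.norm_eq_abs, abs_of_nonneg hu0, mul_pow]
        _ = u ^ 2 * ∑ k, ‖l k‖ ^ 2 := by rw [Finset.mul_sum]
        _ ≤ u₁ ^ 2 * m := by gcongr
        _ = K₁ ^ 2 / (m * a ^ 2) := by
            rw [hu₁]
            field_simp
    have hR1 : ‖∑ k, r k‖ ≤ 1 := by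
      refine hR.trans ?_
      rw [div_le_one (by positivity)]
      nlinarith [sq_nonneg K₁]
    rw [hP, Complex.exp_add]
    have e : Complex.exp (-(m * L) * u) * Complex.exp (∑ k, r k) - Complex.exp (-(m * L) * u) =
        Complex.exp (-(m * L) * u) * (Complex.exp (∑ k, r k) - 1) := by ring
    rw [e, norm_mul]
    have h1 : ‖Complex.exp (-(m * L) * u)‖ ≤ 1 := by
      rw [Complex.norm_exp, Real.exp_le_one_iff]
      have e1 : (-(m * L) * (u : ℂ)).re = -(m * u * L.re) := by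
        have e2 : -(m * L) * (u : ℂ) = -(((m * u : ℝ) : ℂ) * L) := by
          push_cast; ring
        rw [e2, Complex.neg_re, Complex.re_ofReal_mul]
      rw [e1]
      have : 0 ≤ m * u * L.re := by positivity
      linarith
    have h2 := Complex.norm_exp_sub_one_le hR1
    calc ‖Complex.exp (-(m * L) * u)‖ * ‖Complex.exp (∑ k, r k) - 1‖ ≤ 1 * (2 * ‖∑ k, r k‖) :=
          mul_le_mul h1 h2 (norm_nonneg _) zero_le_one
      _ ≤ _ := by linarith
  have hQc : Continuous fun u : ℝ => ∏ k, (1 - (u : ℂ) * l k) := by fun_prop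
  have hEc : Continuous fun u : ℝ => Complex.exp (-(m * L) * u) := by fun_prop
  have herr1 : ‖(∫ u in (0:ℝ)..u₁, ∏ k, (1 - (u : ℂ) * l k)) -
      ∫ u in (0:ℝ)..u₁, Complex.exp (-(m * L) * u)‖ ≤ 1 / (8 * K) / (m * a) := by
    rw [← intervalIntegral.integral_sub (hQc.intervalIntegrable _ _) (hEc.intervalIntegrable _ _)]
    refine (intervalIntegral.norm_integral_le_of_norm_le_const
      (C := 2 * (K₁ ^ 2 / (m * a ^ 2))) ?_).trans ?_
    · intro u hu
      rw [Set.uIoc_of_le hu10.le] at hu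
      exact hsmall u hu.1.le hu.2
    · rw [sub_zero, abs_of_pos hu10, hu₁]
      have e : 2 * (K₁ ^ 2 / (m * a ^ 2)) * (K₁ / (m * a)) =
          2 * K₁ ^ 3 / (m * a ^ 2) / (m * a) := by
        field_simp
      rw [e]
      apply div_le_div_of_nonneg_right _ hma.le
      rw [div_le_div_iff₀ (by positivity) (by positivity)]
      linarith
  have herr2 : ‖∫ u in u₁..a, ∏ k, (1 - (u : ℂ) * l k)‖ ≤ 1 / (8 * K) / (m * a) := by
    refine (intervalIntegral.norm_integral_le_of_norm_le (g := fun u =>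
      Real.exp (-(m * a * μ / 2 * u))) hu1a ?_ ?_).trans ?_
    · filter_upwards with u hu
      exact prod_le μ K a hμ hK ha ha1 (by linarith) m l L q hL' hq' hl h hb u
        (hu10.le.trans hu.1.le) hu.2
    · apply Continuous.intervalIntegrable
      fun_prop
    · refine (int_exp _ _ _ (by positivity)).trans ?_
      have e : m * a * μ / 2 * u₁ = μ * K₁ / 2 := by
        rw [hu₁]
        field_simp
      rw [e]
      have e2 : Real.exp (-(μ * K₁ / 2)) / (m * a * μ / 2) =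
          2 / μ * Real.exp (-(μ * K₁ / 2)) / (m * a) := by
        field_simp
      rw [e2]
      apply div_le_div_of_nonneg_right _ hma.le
      calc 2 / μ * Real.exp (-(μ * K₁ / 2)) ≤ 2 / μ * (μ / (16 * K)) :=
            mul_le_mul_of_nonneg_left (hexp.trans hε1) (by positivity)
        _ = 1 / (8 * K) := by
            field_simp
            norm_num
  -- the main term
  have hc0 : (-(m * L) : ℂ) ≠ 0 := neg_ne_zero.2 (mul_ne_zero hmc hL0)
  have hmain : 7 / (8 * K) / (m * a) ≤ ‖∫ u in (0:ℝ)..u₁, Complex.exp (-(m * L) * u)‖ := by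
    rw [integral_exp_mul_complex hc0, norm_div]
    have hden : ‖(-(m * L) : ℂ)‖ ≤ K * (m * a) := by
      rw [norm_neg, norm_mul, Complex.norm_natCast]
      have := mul_le_mul_of_nonneg_left hLn hm.le
      linarith
    have hnum : 7 / 8 ≤ ‖Complex.exp (-(m * L) * u₁) -
        Complex.exp (-(m * L) * (0 : ℝ))‖ := by
      rw [Complex.ofReal_zero, mul_zero, Complex.exp_zero, norm_sub_rev]
      have h1 : ‖Complex.exp (-(m * L) * u₁)‖ ≤ 1 / 8 := by
        rw [Complex.norm_exp]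
        have e : (-(m * L) * (u₁ : ℂ)).re = -(m * u₁ * L.re) := by
          have e1 : -(m * L) * (u₁ : ℂ) = -(((m * u₁ : ℝ) : ℂ) * L) := by
            push_cast
            ring
          rw [e1, Complex.neg_re, Complex.re_ofReal_mul]
        rw [e]
        have h2 : μ * K₁ ≤ m * u₁ * L.re := by
          have h3 : m * u₁ * (μ * a) ≤ m * u₁ * L.re :=
            mul_le_mul_of_nonneg_left hLre (by positivity)
          have h4 : m * u₁ * (μ * a) = μ * K₁ := by
            rw [hu₁]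
            field_simp
          linarith
        have h3 : Real.exp (-(μ * K₁)) ≤ 1 / 16 := by
          have e2 : Real.exp (-(μ * K₁)) = Real.exp (-(μ * K₁ / 2)) * Real.exp (-(μ * K₁ / 2)) := by
            rw [← Real.exp_add]
            congr 1
            ring
          rw [e2]
          have h5 := hexp.trans hε2
          have h6 := (Real.exp_pos (-(μ * K₁ / 2))).le
          nlinarith
        have h4 := Real.exp_le_exp.2 (show -(m * u₁ * L.re) ≤ -(μ * K₁) by linarith)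
        linarith
      have h2 := norm_sub_norm_le (1 : ℂ) (Complex.exp (-(m * L) * u₁))
      rw [norm_one] at h2
      linarith
    calc 7 / (8 * K) / (m * a) = 7 / 8 / (K * (m * a)) := by
          field_simp
      _ ≤ ‖Complex.exp (-(m * L) * u₁) - Complex.exp (-(m * L) * (0 : ℝ))‖ / (K * (m * a)) := by
          apply div_le_div_of_nonneg_right hnum (by positivity)
      _ ≤ _ := by
          apply div_le_div_of_nonneg_left (norm_nonneg _) (norm_pos_iff.2 hc0) hden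
  have hsplit : ∫ u in (0:ℝ)..a, ∏ k, (1 - (u : ℂ) * l k) =
      (∫ u in (0:ℝ)..u₁, ∏ k, (1 - (u : ℂ) * l k)) + ∫ u in u₁..a, ∏ k, (1 - (u : ℂ) * l k) :=
    (intervalIntegral.integral_add_adjacent_intervals (hQc.intervalIntegrable _ _)
      (hQc.intervalIntegrable _ _)).symm
  have hfin : 5 / (8 * K) / (m * a) ≤ ‖∫ u in (0:ℝ)..a, ∏ k, (1 - (u : ℂ) * l k)‖ := by
    rw [hsplit]
    obtain ⟨A, hA⟩ : ∃ A : ℂ, A = ∫ u in (0:ℝ)..u₁, ∏ k, (1 - (u : ℂ) * l k) := ⟨_, rfl⟩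
    obtain ⟨B, hB⟩ : ∃ B : ℂ, B = ∫ u in u₁..a, ∏ k, (1 - (u : ℂ) * l k) := ⟨_, rfl⟩
    obtain ⟨C, hC⟩ : ∃ C : ℂ, C = ∫ u in (0:ℝ)..u₁, Complex.exp (-(m * L) * u) := ⟨_, rfl⟩
    rw [← hA, ← hC] at herr1
    rw [← hB] at herr2
    rw [← hC] at hmain
    rw [← hA, ← hB]
    have h1 : ‖C‖ ≤ ‖A + B‖ + ‖A - C‖ + ‖B‖ := by
      have e : C = (A + B) - (A - C) - B := by ring
      calc ‖C‖ = ‖(A + B) - (A - C) - B‖ := by rw [← e]
        _ ≤ ‖(A + B) - (A - C)‖ + ‖B‖ := norm_sub_le _ _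
        _ ≤ _ := by
          have := norm_sub_le (A + B) (A - C)
          linarith
    have h2 : 5 / (8 * K) / (m * a) = 7 / (8 * K) / (m * a) - 1 / (8 * K) / (m * a) -
        1 / (8 * K) / (m * a) := by
      field_simp
      norm_num
    linarith
  rw [norm_mul]
  have hm1 : ‖(m : ℂ) + 1‖ = m + 1 := by
    have : ((m : ℂ) + 1) = ((m + 1 : ℕ) : ℂ) := by push_cast; ring
    rw [this, Complex.norm_natCast]
    push_cast
    ring
  rw [hm1]
  calc (1 : ℝ) < (m + 1) * (5 / (8 * K) / (m * a)) := by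
        rw [div_div, mul_div_assoc', lt_div_iff₀ (by positivity)]
        nlinarith [mul_le_mul_of_nonneg_left ha2 hm.le]
    _ ≤ _ := mul_le_mul_of_nonneg_left hfin (by positivity)

end Pool.Agent.H345.BV
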